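import Mathlib
import Pool.Agent.H353R3.Ch4

/-!
# Chow rings of open unions of strata of finite type in `𝔐_{0,n}` are finitely generated

Let `U ⊆ 𝔐_{0,n}` be open, of finite type and a union of strata, and order its strata
`𝔐_{Γ_0}, …, 𝔐_{Γ_{m-1}}` by the number of nodes, so that `U_j = 𝔐_{Γ_0} ∪ … ∪ 𝔐_{Γ_{j-1}}` is open and
`𝔐_{Γ_j}` is closed in `U_{j+1}`.  A `Tower` records the formal properties of the rings
`A j = CH^*(U_j)` (rational coefficients): the localization sequence, the projection formula, the
Chow rings of the strata, and the restrictions to the strata of the tautological classes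
* `κ_a`, `a ≥ 1`;
* `ψ_i` for the markings;
* `δ_k = ν_* ((-ψ_h - ψ_h')^(k-1))`, `k ≥ 1`, for the gluing map `ν` from the disjoint union of all
  `𝔐_{0,A∪h} × 𝔐_{0,B∪h'}` to `𝔐_{0,n}` (`-ψ_h - ψ_h'` is the first Chern class of the normal bundle
  of `ν`, so the restriction of `δ_k` to a stratum is the sum of the `k`-th powers of the first
  Chern classes of the normal directions of the edges, each edge with both orientations).
The ring `CH^*(U)` is then a finite module over the subring generated by finitely many of these
classes, and in particular a finitely generated `ℚ`-algebra.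
-/

set_option autoImplicit false

namespace Pool.Agent.Results.MP_ce8637_ag.TautologicallyFinite

open Pool.Agent.H353R3.Ch

theorem result {n m : ℕ} {S : Strata n m} (T : Tower S) :
    Algebra.FiniteType ℚ (S.A (Fin.last m)) ∧
      ∃ N : ℕ, Module.Finite (taut T N) (S.A (Fin.last m)) :=
  ⟨finiteType T, _, finite_taut T⟩

end Pool.Agent.Results.MP_ce8637_ag.TautologicallyFinite
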